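import Pool.Agent.L7h71.GD.Stm
import Pool.Agent.L7h44.GC.Iso

set_option autoImplicit false

/-! Project GD, part ISM. -/

namespace Pool.Agent.L7h44.GD

open Set Function FirstOrder FirstOrder.Language
open Pool.Agent.L7h66.UA (XIso)
open Pool.Agent.L7h71.GC Pool.Agent.L7h71.GD

variable {L : FirstOrder.Language.{0, 0}}

/-- The top points generate `S`. -/
theorem pres_gen {S : L.Structure ℕ} {ρ : ℕ → ℕ} (h : Pres S ρ) (hd : DisF S) (p : ℕ) :
    Gen S ρ p := by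
  obtain ⟨y, hy, hy', -⟩ := hd.top p
  obtain ⟨i, rfl⟩ := (h.2 y).1 hy'
  exact Gen.of_G1 hy

theorem s_ISM (hG : S_GEN) : S_ISM := by
  intro L E hE S S' ρ ρ' hρ hρ'
  refine ⟨(Pool.Agent.L7h44.GC.s_ISO hG L E hE S S' ρ ρ' hρ hρ').1, fun hd hd' hc => ?_⟩
  have h1 : ∀ φ : L.Formula ℕ, φ.IsQF → (fr S ρ φ ↔ fr S' ρ' φ) := by
    intro φ hφ
    obtain ⟨m, hm⟩ := fr_congr φ
    have h2 : ∀ s ≤ m, tu (fun i : Fin (m + 1) => (i : ℕ)) s = s := by
      intro s hs
      show min s m = s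
      exact min_eq_left hs
    have h3 := congrFun (congrFun (congrFun hc m) (fun i : Fin (m + 1) => (i : ℕ))) (ix E φ)
    unfold cod at h3
    have h4 := decide_eq_decide.1 h3
    rw [ix_spec hE hφ] at h4
    rw [hm S ρ (fun s => ρ (tu (fun i : Fin (m + 1) => (i : ℕ)) s))
        (fun i hi => by simp only [h2 i hi]),
      hm S' ρ' (fun s => ρ' (tu (fun i : Fin (m + 1) => (i : ℕ)) s))
        (fun i hi => by simp only [h2 i hi])]
    exact h4
  obtain ⟨f, -⟩ := hG L S S' ρ ρ' (pres_gen hρ hd) (pres_gen hρ' hd') h1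
  exact ⟨f⟩

end Pool.Agent.L7h44.GD
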